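import Mathlib
import Pool.Agent.H679NR.Final

set_option autoImplicit false

open Set Cardinal

namespace Pool.Agent.Results.MP_1c9258_gt.NotProvable

open Pool.Agent.H679NR

/-- It is consistent with ZFC that there is a compact space which is not Corson compact, although the
closure of every set of at most continuum many points is Corson compact (even Eberlein compact).

* First part: there are a (nonempty) forcing notion `P` and a linear order `W` such that every
  condition of `P` forces the sentence `Phi P W` of the forcing language of `P`. (`W` is the first
  cardinal above the continuum, and the conditions are the bounded sets of limits of countable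
  cofinality which are nonstationary in every limit element.) No hypothesis is made.
* Second part: for the trivial forcing notion `Phi` has its ordinary meaning, spelled out in `Phi₀`:
  `W` is a well-ordered, regular set with more elements than the continuum, and it has a nonreflecting
  stationary set of limits of countable cofinality.
* Third part: if some `W` satisfies `Phi₀`, then there is a compact Hausdorff space `X` such that for
  every set `A` of at most continuum many points the closure of `A` embeds in a power of the real line
  by points of finite support with all coordinates in `[-1, 1]`, while `X` does not embed in any power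
  of the real line by points of countable support. -/
theorem result :
    (∃ (P W : Type) (_ : Preorder P) (_ : LinearOrder W), Nonempty P ∧ ∀ p : P, p ∈ Phi P W) ∧
    (∀ (W : Type) [LinearOrder W], PUnit.unit ∈ Phi PUnit.{1} W ↔ Phi₀ W) ∧
    ((∃ (W : Type) (_ : LinearOrder W), Phi₀ W) →
      ∃ (X : Type) (_ : TopologicalSpace X), CompactSpace X ∧ T2Space X ∧
        (∀ A : Set X, #A ≤ 𝔠 → ∃ (T : Type) (f : ↥(closure A) → T → ℝ), Topology.IsEmbedding f ∧
          (∀ x, (Function.support (f x)).Finite) ∧ ∀ x t, |f x t| ≤ 1) ∧
        ¬ ∃ (T : Type) (f : X → T → ℝ), Topology.IsEmbedding f ∧
          ∀ x, (Function.support (f x)).Countable) := by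
  refine ⟨exists_forcing, fun W _ => phi_iff W, ?_⟩
  rintro ⟨W, _, hW⟩
  obtain ⟨X, t, h1, h2, h3, h4⟩ := plain hW
  exact ⟨X, t, h1, h2, h3, fun ⟨T, f, hf, hs⟩ => h4 ⟨T, f, hf.continuous, hf.injective, hs⟩⟩

end Pool.Agent.Results.MP_1c9258_gt.NotProvable
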